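import Pool.Agent.helper59.PT.Spec

set_option linter.all false
set_option autoImplicit false

/-!
# pt:RO (MP_2dd521_co): invariance of the Gaussian functional under the rotation of the slots
-/

namespace Pool.Agent.helper57.PT

open MvPolynomial Pool.Agent.helper59.PT

/-- a Gaussian functional is determined by its covariance -/
theorem isG_unique {V : Type} [Fintype V] [DecidableEq V] {K : V → V → ℂ}
    {L L' : MvPolynomial V ℂ →ₗ[ℂ] ℂ} (h : IsG K L) (h' : IsG K L') : L = L' := by
  have key : ∀ n : ℕ, ∀ s : V →₀ ℕ, s.degree = n →
      ∀ c : ℂ, L (monomial s c) = L' (monomial s c) := by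
    intro n
    induction n using Nat.strong_induction_on with
    | _ n ih =>
      intro s hs c
      by_cases h0 : s = 0
      · subst h0
        have e : (monomial (0 : V →₀ ℕ) c : MvPolynomial V ℂ) = c • 1 := by
          rw [← C_mul', mul_one]; rfl
        rw [e, map_smul, map_smul, h.one, h'.one]
      · obtain ⟨v, hv⟩ : ∃ v, s v ≠ 0 := by
          by_contra hcon
          push Not at hcon
          exact h0 (Finsupp.ext hcon)
        have hle : Finsupp.single v 1 ≤ s := by
          rw [Finsupp.single_le_iff]
          omega
        have hs' : Finsupp.single v 1 + (s - Finsupp.single v 1) = s :=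
          add_tsub_cancel_of_le hle
        have hd : (s - Finsupp.single v 1).degree + 1 = n := by
          have := congrArg Finsupp.degree hs'
          rw [map_add, Finsupp.degree_single] at this
          omega
        have e : (monomial s c : MvPolynomial V ℂ) =
            X v * monomial (s - Finsupp.single v 1) c := by
          rw [X, monomial_mul, one_mul, hs']
        rw [e, h.step, h'.step]
        apply Finset.sum_congr rfl
        intro w _
        rw [pderiv_monomial]
        congr 1
        refine ih ((s - Finsupp.single v 1 - Finsupp.single w 1).degree) ?_ _ rfl _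
        have : (s - Finsupp.single v 1 - Finsupp.single w 1).degree ≤
            (s - Finsupp.single v 1).degree :=
          Finsupp.degree_mono tsub_le_self
        omega
  refine LinearMap.ext fun P => ?_
  rw [P.as_sum, map_sum, map_sum]
  exact Finset.sum_congr rfl fun s _ => key _ s rfl _

/-- a Gaussian functional is invariant under the symmetries of its covariance -/
theorem isG_rename {V : Type} [Fintype V] [DecidableEq V] {K : V → V → ℂ}
    {L : MvPolynomial V ℂ →ₗ[ℂ] ℂ} (h : IsG K L) (g : V ≃ V)
    (hg : ∀ v w, K (g v) (g w) = K v w) (Q : MvPolynomial V ℂ) : L (rename g Q) = L Q := by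
  have h2 : IsG K (L ∘ₗ (rename (g : V → V)).toLinearMap) := by
    refine ⟨?_, fun v Q => ?_⟩
    · show L (rename (g : V → V) 1) = 1
      rw [map_one, h.one]
    · show L (rename (g : V → V) (X v * Q)) =
        ∑ w, K v w * L (rename (g : V → V) (pderiv w Q))
      rw [map_mul, rename_X, h.step, ← Equiv.sum_comp g]
      apply Finset.sum_congr rfl
      intro w _
      rw [hg, pderiv_rename g.injective]
  have := congrArg (fun T : MvPolynomial V ℂ →ₗ[ℂ] ℂ => T Q) (isG_unique h2 h)
  exact this

/-- the rotation of the slots as an equivalence -/
def rotE : Sl ≃ Sl where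
  toFun := rotS
  invFun
    | Sum.inl p => Sum.inl (p - 1)
    | Sum.inr q => Sum.inr (q - 1)
  left_inv s := by
    rcases s with p | q <;> simp [rotS]
  right_inv s := by
    rcases s with p | q <;> simp [rotS]

/-- **pt:RO** -/
theorem rowRO : RowRO := by
  intro ι _ _ c L hL Q
  refine isG_rename hL (Equiv.prodCongr rotE (Equiv.refl ι)) ?_ Q
  rintro ⟨s, a⟩ ⟨t, b⟩
  show KC c (rotS s, a) (rotS t, b) = KC c (s, a) (t, b)
  rcases s with p | q <;> rcases t with p' | q' <;>
    simp [rotS, KC, circ, add_sub_add_right_eq_sub]

end Pool.Agent.helper57.PT
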